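import Pool.Agent.Lib.MP_fb3619_al.H42.Lh6
import Pool.Agent.Lib.MP_fb3619_al.H28.FlatU

/-!
# MP_fb3619_al: the row CenS
-/

set_option autoImplicit false

universe u

namespace Pool.Agent.FourGp.H28f

theorem cenS : CenS.{u} := by
  intro W _ _ α β Sa Sb Sc h f h1 h2 w
  exact H42.cen_of_Cg h f h1 h2 w

end Pool.Agent.FourGp.H28f
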