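import Pool.Agent.Lib.MP_fb3619_al.GJ6.Fin

/-!
# MP_fb3619_al: LEMMA H (helper11), the representation theoretic part

`t` is an irreducible representation of the fixed points `F` of the four-group which is trivial on
`F ∩ ⟨elements of C_L(b) inverted by a⟩`. There is an irreducible representation of `G` containing
`t` on which every subgroup `S`, such that all `b^l s` are conjugate to some `b k`, acts trivially.
-/

set_option autoImplicit false

universe u v w

namespace Pool.Agent.FourGp.H42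

open LinearMap Module Pool.Agent.FourGp.GJ6

variable {G : Type u} [Group G] [Finite G] {L : Subgroup G} {a b : G} {m : ℕ}

/-- a group of operators whose traces are all equal to the dimension is trivial -/
theorem triv_of_tr {E : Type v} [AddCommGroup E] [Module ℂ E] [FiniteDimensional ℂ E]
    {r : G → (E →ₗ[ℂ] E)} {S : Subgroup G} (hr : Mu S r)
    (h : ∀ x ∈ S, trace ℂ E (r x) = (finrank ℂ E : ℂ)) : ∀ x ∈ S, r x = 1 := by
  have hP := Pj_idem hr
  have htr : trace ℂ E (Pj S r) = (finrank ℂ E : ℂ) := by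
    have h1 := tr_Pj hr le_rfl S.one_mem
    rw [hr.one, one_mul] at h1
    rw [h1, Finset.sum_congr rfl fun x hx => by rw [one_mul, h x (mem_fs.1 hx)],
      Finset.sum_const, nsmul_eq_mul, ← mul_assoc, inv_mul_cancel₀ (card_ne S), one_mul]
  have h2 : (1 - Pj S r) * (1 - Pj S r) = 1 - Pj S r := by
    rw [sub_mul, mul_sub, mul_sub, one_mul, one_mul, mul_one, hP]
    abel
  have h3 : trace ℂ E (1 - Pj S r) = 0 := by
    rw [map_sub, trace_one, htr, sub_self]
  have h4 : 1 - Pj S r = 0 := by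
    have h5 : IsIdempotentElem (1 - Pj S r) := h2
    exact (LinearMap.IsIdempotentElem.trace_eq_zero_iff h5).1 h3
  have h6 : Pj S r = 1 := (sub_eq_zero.1 h4).symm
  intro x hx
  have h7 := Pj_left hr hx
  rwa [h6, mul_one] at h7

/-- **LEMMA H**, steps (1), (2), (3), (5) -/
theorem lemH (h : Gp L a b m) {W : Type u} [AddCommGroup W] [Module ℂ W]
    [FiniteDimensional ℂ W] {t : G → (W →ₗ[ℂ] W)} (ht : Mu (Ff L a b) t)
    (htI : Irr (Ff L a b) t) (htb : ∀ x ∈ Ff L a b, x ∈ Kk L b a → t x = 1) :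
    ∃ (E : Type u) (_ : AddCommGroup E) (_ : Module ℂ E) (_ : FiniteDimensional ℂ E)
      (r : G → (E →ₗ[ℂ] E)), Mu ⊤ r ∧ Irr ⊤ r ∧
        (∃ T : W →ₗ[ℂ] E, ker T = ⊥ ∧ ∀ x ∈ Ff L a b, ∀ w, T (t x w) = r x (T w)) ∧
        ∀ S : Subgroup G, (∀ s ∈ S, ∀ l ∈ L, ∃ l1 ∈ L, ∃ k ∈ Kk L b a,
          l1 * (l * b * l⁻¹ * s) * l1⁻¹ = b * k) → ∀ s ∈ S, r s = 1 := by
  classical
  set F := Ff L a b with hF
  obtain ⟨sb, hsb, hsbF, hsba, hsbb, hsbt, hsbK⟩ := h.ext_rep ht htb
  have hsbI : Irr F sb := ⟨htI.1, fun N hN => htI.2 N fun x hx u hu => by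
    rw [← hsbF x hx]; exact hN x hx u hu⟩
  obtain ⟨E, _, _, _, r, hr, hI, k, hk⟩ := h.exists_odd hsb hsbI
  have hm : ∀ x y, r (x * y) = r x * r y := fun x y =>
    hr.mul x (Subgroup.mem_top x) y (Subgroup.mem_top y)
  obtain ⟨p, q, e1, e2⟩ := h.parity hr hsb
  have ep : p = 2 * k + 1 := by
    have : (p : ℂ) = ((2 * k + 1 : ℤ) : ℂ) := by rw [← e1, hk]
    exact_mod_cast this
  have eF : nn F r sb 1 = nn F r t 1 := by
    rw [nn, nn]
    congr 1
    refine Finset.sum_congr rfl fun x hx => ?_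
    rw [hsbF _ (F.inv_mem (F.mul_mem F.one_mem (mem_fs.1 hx)))]
  have hp0 : p ≠ 0 := by omega
  -- the character does not vanish on `bL`
  have nzb : ∃ x ∈ L, trace ℂ E (r (b * x)) ≠ 0 := by
    by_contra hcon
    apply hp0
    have : nn (Cc L b) r sb b = 0 := by
      rw [nn, Finset.sum_eq_zero, mul_zero]
      intro x hx
      have : trace ℂ E (r (b * x)) = 0 := by
        by_contra h3
        exact hcon ⟨x, Cc_le _ _ (mem_fs.1 hx), h3⟩
      rw [this, zero_mul]
    rw [this] at e1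
    exact_mod_cast e1.symm
  -- the character does not vanish on `abL`
  have nzc : ∃ x ∈ L, trace ℂ E (r (a * b * x)) ≠ 0 := by
    set C : Subgroup G := Subgroup.centralizer {b} with hC
    have memC : ∀ x, x ∈ C ↔ x * b = b * x := fun x => Subgroup.mem_centralizer_singleton_iff
    have hFC : F ≤ C := (Cc_le _ _).trans inf_le_right
    have hcC : a * b ∈ C := C.mul_mem ((memC a).2 h.ab) ((memC b).2 rfl)
    have hFL : F ≤ L := (Cc_le _ _).trans (Cc_le _ _)
    obtain ⟨m3, n3, e3, e3'⟩ := par (hr.le (le_top : C ≤ ⊤)) hsb hFC hcC h.cc (by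
      intro x hx
      obtain ⟨_, hxb, hxa⟩ := mem_Ff.1 hx
      have c1 : Commute x (a * b) :=
        (show Commute x a from hxa).mul_right (show Commute x b from hxb)
      have : a * b * x * (a * b)⁻¹ = x := by rw [← c1.eq]; group
      rw [this]; exact hx)
    have hm3 : m3 + 2 * n3 = p + 2 * q := by
      have : ((m3 + 2 * n3 : ℤ) : ℂ) = ((p + 2 * q : ℤ) : ℂ) := by rw [← e3', ← e2]
      exact_mod_cast this
    by_contra hcon
    have hz : nn F r sb (a * b) = 0 := by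
      rw [nn, Finset.sum_eq_zero, mul_zero]
      intro x hx
      have : trace ℂ E (r (a * b * x)) = 0 := by
        by_contra h3
        exact hcon ⟨x, hFL (mem_fs.1 hx), h3⟩
      rw [this, zero_mul]
    rw [hz] at e3
    have : m3 = 0 := by exact_mod_cast e3.symm
    omega
  obtain ⟨vb, vb2⟩ := h.val hr hsb hsbI (h.norm hr hI nzb nzc h.bb) hp0 e1
  set dW : ℂ := (finrank ℂ W : ℂ) with hdW
  have hdW0 : dW ≠ 0 := by
    have : Nontrivial W := htI.1
    have h1 : 0 < finrank ℂ W := finrank_pos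
    rw [hdW]
    exact_mod_cast h1.ne'
  -- values on `b Kk`
  have trb : ∀ k ∈ Kk L b a, trace ℂ E (r (b * k)) = p * dW := by
    intro k hk
    have hkc := Kk_le hk
    rw [vb _ hkc, hsbt _ (mem_Cc.1 hkc).2, hsbK _ hk, trace_one]
  have hp1 : (p : ℂ) ≠ 0 := by exact_mod_cast hp0
  obtain ⟨κ, hκ⟩ := h.scb hr hI
  have k1 : ((fs L).card : ℂ) * (p * dW) = κ * (finrank ℂ E : ℂ) := by
    have h1 := congrArg (trace ℂ E) hκ
    rw [map_sum, map_smul, trace_one, smul_eq_mul] at h1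
    rw [← h1]
    have : ∀ l ∈ fs L, trace ℂ E (r (l * b * l⁻¹)) = p * dW := by
      intro l _
      have h2 := trb 1 (Subgroup.one_mem _)
      rw [mul_one] at h2
      rw [hr.cj (Subgroup.mem_top _) (Subgroup.mem_top l), h2]
    rw [Finset.sum_congr rfl this, Finset.sum_const, nsmul_eq_mul]
  have hκ0 : κ ≠ 0 := by
    intro h0
    rw [h0, zero_mul] at k1
    exact (mul_ne_zero (card_ne L) (mul_ne_zero hp1 hdW0)) k1
  refine ⟨E, _, _, inferInstance, r, hr, hI, ?_, ?_⟩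
  · -- an embedding of `W`
    have hmu : Mu F (GJ6.hm r t) := hm_mu (hr.le le_top) ht
    rw [← hF, eF] at e2
    have hPne : Pj F (GJ6.hm r t) ≠ 0 := by
      intro h0
      have h1 := tr_nn (hr.le (le_top : F ≤ ⊤)) ht le_rfl F.one_mem
      rw [h0, mul_zero, map_zero, e2] at h1
      have h2 : (0 : ℤ) = p + 2 * q := by exact_mod_cast h1
      omega
    obtain ⟨T0, hT0⟩ : ∃ T0, Pj F (GJ6.hm r t) T0 ≠ 0 := by
      by_contra hcon
      apply hPne
      ext1 T0
      by_contra h3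
      exact hcon ⟨T0, h3⟩
    set T := Pj F (GJ6.hm r t) T0 with hT
    have hTx : ∀ x ∈ F, ∀ w, T (t x w) = r x (T w) := by
      intro x hx w
      have h1 : GJ6.hm r t x T = T := LinearMap.congr_fun (Pj_left hmu hx) T0
      have h2 : T (t x w) = (GJ6.hm r t x T) (t x w) := by rw [h1]
      rw [h2]
      show r x (T (t x⁻¹ (t x w))) = r x (T w)
      have h3 : t x⁻¹ (t x w) = w := LinearMap.congr_fun (ht.inv' hx) w
      rw [h3]
    have hker : ker T = ⊥ := by
      rcases htI.2 (ker T) (by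
        intro x hx w hw
        rw [LinearMap.mem_ker] at hw ⊢
        rw [hTx x hx, hw, map_zero]) with h1 | h1
      · exact h1
      · exfalso
        apply hT0
        ext w
        have : w ∈ ker T := by rw [h1]; trivial
        exact this
    exact ⟨T, hker, hTx⟩
  · intro S hS
    refine triv_of_tr (hr.le le_top) fun s hs => ?_
    have k2 : ((fs L).card : ℂ) * (p * dW) = κ * trace ℂ E (r s) := by
      have h1 : trace ℂ E ((∑ l ∈ fs L, r (l * b * l⁻¹)) * r s) = trace ℂ E ((κ • 1) * r s) := by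
        rw [hκ]
      rw [Finset.sum_mul, map_sum, smul_mul_assoc, one_mul, map_smul, smul_eq_mul] at h1
      rw [← h1]
      have : ∀ l ∈ fs L, trace ℂ E (r (l * b * l⁻¹) * r s) = p * dW := by
        intro l hl
        obtain ⟨l1, _, k, hk, e⟩ := hS s hs l (mem_fs.1 hl)
        rw [← hm, ← hr.cj (Subgroup.mem_top _) (Subgroup.mem_top l1), e, trb k hk]
      rw [Finset.sum_congr rfl this, Finset.sum_const, nsmul_eq_mul]
    exact mul_left_cancel₀ hκ0 (by rw [← k2, k1])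

/-- the corollary for one type: `F ≤ ⟨elements of C_L(b) inverted by a⟩` -/
theorem corH (h : Gp L a b m) {Sa Sb Sc : Subgroup G}
    (hgen : L ≤ Subgroup.closure ((Sa : Set G) ∪ (Sb : Set G) ∪ (Sc : Set G)))
    (hb : ∀ s ∈ Sb, a * s * a = s⁻¹)
    (ha4 : ∀ s ∈ Sa, ∀ l ∈ L, ∃ l1 ∈ L, ∃ k ∈ Kk L b a, l1 * (l * b * l⁻¹ * s) * l1⁻¹ = b * k)
    (hc4 : ∀ s ∈ Sc, ∀ l ∈ L, ∃ l1 ∈ L, ∃ k ∈ Kk L b a, l1 * (l * b * l⁻¹ * s) * l1⁻¹ = b * k) :
    Ff L a b ≤ Kk L b a := by
  classical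
  intro f0 hf0
  by_contra hf0K
  have hn : ∀ f ∈ Ff L a b, ∀ x ∈ Ff L a b ⊓ Kk L b a, f * x * f⁻¹ ∈ Ff L a b ⊓ Kk L b a := by
    intro f hf x hx
    exact ⟨(Ff L a b).mul_mem ((Ff L a b).mul_mem hf hx.1) ((Ff L a b).inv_mem hf), h.kf hf hx.2⟩
  obtain ⟨W, _, _, _, t, ht, htI, htM, htf⟩ := exists_tau hn hf0 (fun h' => hf0K h'.2)
  obtain ⟨E, _, _, _, r, hr, hI, ⟨T, hker, hTx⟩, hS⟩ :=
    lemH h ht htI (fun x hx hk => htM x hx ⟨hx, hk⟩)
  have hm : ∀ x y, r (x * y) = r x * r y := fun x y =>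
    hr.mul x (Subgroup.mem_top x) y (Subgroup.mem_top y)
  have hSa := hS Sa ha4
  have hSc := hS Sc hc4
  have hinv : ∀ x, r x * r x⁻¹ = 1 := fun x => hr.inv (Subgroup.mem_top x)
  have hinv' : ∀ x, r x⁻¹ * r x = 1 := fun x => hr.inv' (Subgroup.mem_top x)
  -- every element of `L` acts as an element of `Sb`
  set Z : Subgroup G :=
    { carrier := {x | ∃ s ∈ Sb, r x = r s}
      mul_mem' := by
        rintro x y ⟨s, hs, h1⟩ ⟨s', hs', h2⟩
        exact ⟨s * s', Sb.mul_mem hs hs', by rw [hm, hm, h1, h2]⟩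
      one_mem' := ⟨1, Sb.one_mem, rfl⟩
      inv_mem' := by
        rintro x ⟨s, hs, h1⟩
        refine ⟨s⁻¹, Sb.inv_mem hs, ?_⟩
        calc r x⁻¹ = r x⁻¹ * (r s * r s⁻¹) := by rw [hinv, mul_one]
          _ = (r x⁻¹ * r x) * r s⁻¹ := by rw [h1, mul_assoc]
          _ = r s⁻¹ := by rw [hinv', one_mul] } with hZ
  have hle : L ≤ Z := by
    refine hgen.trans ?_
    rw [Subgroup.closure_le]
    rintro x ((hx | hx) | hx)
    · exact ⟨1, Sb.one_mem, by rw [hSa x hx, hr.one]⟩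
    · exact ⟨x, hx, rfl⟩
    · exact ⟨1, Sb.one_mem, by rw [hSc x hx, hr.one]⟩
  obtain ⟨hfL, _, hfa⟩ := mem_Ff.1 hf0
  obtain ⟨s, hs, hrs⟩ := hle hfL
  have e1 : r f0 = r f0⁻¹ := by
    have h1 : a * f0 * a = f0 := by rw [mul_assoc, hfa, ← mul_assoc, h.aa, one_mul]
    have h2 : r s⁻¹ = r f0⁻¹ := by
      calc r s⁻¹ = (r f0⁻¹ * r f0) * r s⁻¹ := by rw [hinv', one_mul]
        _ = r f0⁻¹ * (r s * r s⁻¹) := by rw [hrs, mul_assoc]
        _ = r f0⁻¹ := by rw [hinv, mul_one]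
    calc r f0 = r (a * f0 * a) := by rw [h1]
      _ = r a * r f0 * r a := by rw [hm, hm]
      _ = r (a * s * a) := by rw [hrs, hm, hm]
      _ = r s⁻¹ := by rw [hb s hs]
      _ = r f0⁻¹ := h2
  have e2 : r (f0 * f0) = 1 := by
    rw [hm]
    conv_lhs => rw [e1]
    have h3 := hinv' f0
    rw [e1] at h3
    exact h3
  have e3 : r f0 = 1 := by
    obtain ⟨k, hk⟩ := h.od
    have h4 : f0 ^ m = 1 := h.ex f0 hfL
    rw [hk, pow_succ, pow_mul, pow_two] at h4
    have h5 : r ((f0 * f0) ^ k) = 1 := by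
      rw [← hr.pow (Subgroup.mem_top _), e2, one_pow]
    have h6 : r ((f0 * f0) ^ k * f0) = 1 := by rw [h4, hr.one]
    rw [hm, h5, one_mul] at h6
    exact h6
  apply htf
  ext w
  have h1 : T (t f0 w) = T w := by
    rw [hTx f0 hf0, e3]; rfl
  exact LinearMap.ker_eq_bot.1 hker h1

end Pool.Agent.FourGp.H42
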