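import Pool.Agent.Lib.MP_fb3619_al.H42.Lh

/-!
# MP_fb3619_al: LEMMA H (helper11), step (4) and the corollary `F ≤ Z(L)`
-/

set_option autoImplicit false

universe u v w

namespace Pool.Agent.FourGp.H42

open Pool.Agent.FourGp.GJ6

variable {G : Type u} [Group G] {L : Subgroup G} {a b : G} {m : ℕ}

/-- step (4): `b^l s` is conjugate to `b k` -/
theorem lem4 (h : Gp L a b m) {S : Subgroup G} (hSL : S ≤ L) (hSa : ∀ s ∈ S, a * s * a = s⁻¹)
    (hSb : ∀ s ∈ S, b * s * b = s⁻¹) (hSn : ∀ d ∈ Cc L (a * b), ∀ s ∈ S, d⁻¹ * s * d ∈ S) :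
    ∀ s ∈ S, ∀ l ∈ L, ∃ l1 ∈ L, ∃ k ∈ Kk L b a, l1 * (l * b * l⁻¹ * s) * l1⁻¹ = b * k := by
  intro s hs l hl
  have haa := h.aa
  have hbb := h.bb
  have hcc := h.cc
  have hab := h.ab
  have cab : Commute a b := h.ab
  have na := h.nz h.aa
  have nb := h.nz h.bb
  have nc := h.nz h.cc
  set y := l * b * l⁻¹ with hy
  have hyy : y * y = 1 := by
    calc y * y = l * (b * b) * l⁻¹ := by rw [hy]; group
      _ = 1 := by rw [hbb]; group
  -- the involution `x` of `y c`
  set t := y * (a * b) with ht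
  have hbyL : b * y ∈ L := by
    have e : b * y = (b * l * b) * l⁻¹ := by rw [hy]; group
    rw [e]
    exact L.mul_mem (nb.nm l hl) (L.inv_mem hl)
  have hybL : y * b ∈ L := by
    have e : y * b = (b * y)⁻¹ := by rw [mul_inv_rev, inv_self hyy, inv_self hbb]
    rw [e]; exact L.inv_mem hbyL
  have htL : a * t ∈ L := by
    have e : a * t = a * (y * b) * a := by
      rw [ht, hab]; group
    rw [e]
    exact na.nm _ hybL
  obtain ⟨h1, h2⟩ := na.inv_part htL
  set x := t ^ m with hx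
  have hti : t⁻¹ = (a * b) * y := by rw [ht, mul_inv_rev, inv_self hyy, inv_self hcc]
  have hxc : Commute x (a * b) := by
    have e1 : (a * b) * t * (a * b)⁻¹ = t⁻¹ := by
      rw [hti, ht, inv_self hcc]
      calc a * b * (y * (a * b)) * (a * b) = a * b * y * ((a * b) * (a * b)) := by group
        _ = _ := by rw [hcc, mul_one]
    have e2 : (a * b) * x * (a * b)⁻¹ = x := by
      rw [hx, ← conj_pow, e1, inv_pow, inv_self h1]
    have : (a * b) * x = x * (a * b) := by
      calc (a * b) * x = ((a * b) * x * (a * b)⁻¹) * (a * b) := by group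
        _ = _ := by rw [e2]
    exact this.symm
  have hxy : Commute x y := by
    have e1 : y * t * y⁻¹ = t⁻¹ := by
      rw [hti, inv_self hyy]
      calc y * t * y = (y * y) * (a * b) * y := by rw [ht]; group
        _ = _ := by rw [hyy, one_mul]
    have e2 : y * x * y⁻¹ = x := by
      rw [hx, ← conj_pow, e1, inv_pow, inv_self h1]
    have : y * x = x * y := by
      calc y * x = (y * x * y⁻¹) * y := by group
        _ = _ := by rw [e2]
    exact this.symm
  have cac : Commute a (a * b) := (Commute.refl a).mul_right cab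
  have hNz : Nz (Cc L (a * b)) a m := by
    refine ⟨haa, ?_, h.od, fun z hz => h.ex z (Cc_le _ _ hz)⟩
    intro z hz
    obtain ⟨hzL, hzc⟩ := mem_Cc.1 hz
    have c1 : Commute z (a * b) := hzc
    exact mem_Cc.2 ⟨na.nm z hzL, (cac.mul_left c1).mul_left cac⟩
  obtain ⟨d, hd, hxd⟩ := hNz.conj (z := x) h1 (mem_Cc.2 ⟨h2, cac.mul_left hxc⟩)
  obtain ⟨hdL, hdc⟩ := mem_Cc.1 hd
  -- conjugate
  set y' := d⁻¹ * y * d with hy'
  set s' := d⁻¹ * s * d with hs'
  have hs'S : s' ∈ S := hSn d hd s hs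
  have hy'y' : y' * y' = 1 := by
    calc y' * y' = d⁻¹ * (y * y) * d := by rw [hy']; group
      _ = 1 := by rw [hyy]; group
  have hay' : Commute a y' := by
    have e : a = d⁻¹ * x * d := by rw [hxd]; group
    show a * y' = y' * a
    calc a * y' = (d⁻¹ * x * d) * (d⁻¹ * y * d) := by rw [← e]
      _ = d⁻¹ * (x * y) * d := by group
      _ = d⁻¹ * (y * x) * d := by rw [hxy.eq]
      _ = (d⁻¹ * y * d) * (d⁻¹ * x * d) := by group
      _ = y' * a := by rw [← e]
  obtain ⟨al, hal⟩ : ∃ al, al = b * y' := ⟨_, rfl⟩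
  have halL : al ∈ L := by
    have e : al = (b * (d⁻¹ * l) * b) * (d⁻¹ * l)⁻¹ := by rw [hal, hy', hy]; group
    rw [e]
    have : d⁻¹ * l ∈ L := L.mul_mem (L.inv_mem hdL) hl
    exact L.mul_mem (nb.nm _ this) (L.inv_mem this)
  have haal : Commute a al := by rw [hal]; exact cab.mul_right hay'
  have hy'b : y' = b * al := by rw [hal, ← mul_assoc, hbb, one_mul]
  have hbal : b * al * b = al⁻¹ := by
    rw [hal, mul_inv_rev, inv_self hy'y', inv_self hbb]
    calc b * (b * y') * b = (b * b) * y' * b := by group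
      _ = _ := by rw [hbb, one_mul]
  -- the square root
  set rho := sr m s' with hrho
  have hrS : rho ∈ S := by rw [hrho]; exact S.pow_mem hs'S _
  have hrr : rho * rho = s' := na.sr_sq (hSL hs'S)
  have hra := hSa rho hrS
  have hrb := hSb rho hrS
  obtain ⟨g, hg⟩ : ∃ g, g = rho * b * al * rho := ⟨_, rfl⟩
  have hgL : b * g ∈ L := by
    have e : b * g = (b * rho * b) * al * rho := by rw [hg]; group
    rw [e]
    exact L.mul_mem (L.mul_mem (nb.nm _ (hSL hrS)) halL) (hSL hrS)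
  have hgi : g⁻¹ = rho⁻¹ * al⁻¹ * b * rho⁻¹ := by
    rw [hg, mul_inv_rev, mul_inv_rev, mul_inv_rev, inv_self hbb]; group
  have hbal' : al⁻¹ * b = b * al := by
    rw [← hbal]
    calc b * al * b * b = b * al * (b * b) := by group
      _ = b * al := by rw [hbb, mul_one]
  have haga : a * g * a = g⁻¹ := by
    calc a * g * a = (a * rho * a) * (a * b * a) * (a * al * a) * (a * rho * a) := by
          have e : ∀ z : G, a * z = a * z * (a * a) := fun z => by rw [haa, mul_one]
          calc a * g * a = a * rho * 1 * b * 1 * al * 1 * rho * a := by rw [hg]; group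
            _ = a * rho * (a * a) * b * (a * a) * al * (a * a) * rho * a := by rw [haa]
            _ = _ := by group
      _ = rho⁻¹ * b * al * rho⁻¹ := by
          rw [hra]
          have e1 : a * b * a = b := by rw [hab, mul_assoc, haa, mul_one]
          have e2 : a * al * a = al := by rw [haal.eq, mul_assoc, haa, mul_one]
          rw [e1, e2]
      _ = rho⁻¹ * (al⁻¹ * b) * rho⁻¹ := by rw [hbal']; group
      _ = g⁻¹ := by rw [hgi]; group
  obtain ⟨g1, g2⟩ := nb.inv_part hgL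
  obtain ⟨y2, hy2⟩ : ∃ y2, y2 = g ^ m := ⟨_, rfl⟩
  rw [← hy2] at g1 g2
  have hgy2 : Commute g y2 := by rw [hy2]; exact (Commute.refl g).pow_right m
  have hay2 : Commute a y2 := by
    have e2 : a * y2 * a⁻¹ = y2 := by
      have g1' : g ^ m * g ^ m = 1 := by rw [← hy2]; exact g1
      rw [hy2, ← conj_pow, inv_self haa, haga, inv_pow, inv_self g1']
    show a * y2 = y2 * a
    calc a * y2 = (a * y2 * a⁻¹) * a := by group
      _ = _ := by rw [e2]
  have hNz2 : Nz (Cc L a) b m := by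
    refine ⟨hbb, ?_, h.od, fun z hz => h.ex z (Cc_le _ _ hz)⟩
    intro z hz
    obtain ⟨hzL, hza⟩ := mem_Cc.1 hz
    have c1 : Commute z a := hza
    exact mem_Cc.2 ⟨nb.nm z hzL, (cab.symm.mul_left c1).mul_left cab.symm⟩
  obtain ⟨h0, hh0, hy2h⟩ := hNz2.conj (z := y2) g1 (mem_Cc.2 ⟨g2, cab.symm.mul_left hay2.symm⟩)
  obtain ⟨hh0L, hh0a⟩ := mem_Cc.1 hh0
  have ch0 : Commute h0 a := hh0a
  obtain ⟨de, hde⟩ : ∃ de, de = y2 * g := ⟨_, rfl⟩
  have hdeL : de ∈ L := by
    have e : de = (y2 * b) * (b * g) := by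
      rw [hde]
      calc y2 * g = y2 * 1 * g := by group
        _ = y2 * (b * b) * g := by rw [hbb]
        _ = _ := by group
    have e3 : y2 * b = (b * y2)⁻¹ := by rw [mul_inv_rev, inv_self g1, inv_self hbb]
    rw [e, e3]
    exact L.mul_mem (L.inv_mem g2) hgL
  have hdey : Commute de y2 := by rw [hde]; exact (Commute.refl y2).mul_left hgy2
  have hdea : a * de * a = de⁻¹ := by
    have e1 : a * y2 * a = y2 := by rw [hay2.eq, mul_assoc, haa, mul_one]
    calc a * de * a = (a * y2 * a) * (a * g * a) := by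
          calc a * de * a = a * y2 * 1 * g * a := by rw [hde]; group
            _ = a * y2 * (a * a) * g * a := by rw [haa]
            _ = _ := by group
      _ = y2 * g⁻¹ := by rw [e1, haga]
      _ = g⁻¹ * y2 := by rw [(hgy2.inv_left).eq]
      _ = g⁻¹ * y2⁻¹ := by rw [inv_self g1]
      _ = de⁻¹ := by rw [hde, mul_inv_rev]
  have hgde : g = y2 * de := by rw [hde, ← mul_assoc, g1, one_mul]
  obtain ⟨k, hk⟩ : ∃ k, k = h0⁻¹ * de * h0 := ⟨_, rfl⟩
  have hkM : k ∈ Mn L b a := by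
    refine ⟨by rw [hk]; exact L.mul_mem (L.mul_mem (L.inv_mem hh0L) hdeL) hh0L, ?_, ?_⟩
    · have e : b = h0⁻¹ * y2 * h0 := by rw [hy2h]; group
      calc k * b = (h0⁻¹ * de * h0) * (h0⁻¹ * y2 * h0) := by rw [← e, hk]
        _ = h0⁻¹ * (de * y2) * h0 := by group
        _ = h0⁻¹ * (y2 * de) * h0 := by rw [hdey.eq]
        _ = (h0⁻¹ * y2 * h0) * (h0⁻¹ * de * h0) := by group
        _ = b * k := by rw [← e, hk]
    · calc a * k * a = (a * h0⁻¹) * de * (h0 * a) := by rw [hk]; group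
        _ = (h0⁻¹ * a) * de * (a * h0) := by rw [ch0.inv_left.symm.eq, ch0.eq]
        _ = h0⁻¹ * (a * de * a) * h0 := by group
        _ = k⁻¹ := by rw [hdea, hk]; group
  refine ⟨h0⁻¹ * rho * d⁻¹, L.mul_mem (L.mul_mem (L.inv_mem hh0L) (hSL hrS)) (L.inv_mem hdL), k,
    Subgroup.subset_closure hkM, ?_⟩
  have e1 : rho * (d⁻¹ * (y * s) * d) * rho⁻¹ = g := by
    calc rho * (d⁻¹ * (y * s) * d) * rho⁻¹ = rho * (y' * s') * rho⁻¹ := by
          rw [hy', hs']; group
      _ = rho * ((b * al) * (rho * rho)) * rho⁻¹ := by rw [← hy'b, hrr]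
      _ = g := by rw [hg]; group
  calc h0⁻¹ * rho * d⁻¹ * (y * s) * (h0⁻¹ * rho * d⁻¹)⁻¹
      = h0⁻¹ * (rho * (d⁻¹ * (y * s) * d) * rho⁻¹) * h0 := by group
    _ = h0⁻¹ * (y2 * de) * h0 := by rw [e1, hgde]
    _ = (h0⁻¹ * y2 * h0) * k := by rw [hk]; group
    _ = b * k := by rw [hy2h]; group

end Pool.Agent.FourGp.H42
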