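import Pool.Agent.Lib.MP_fb3619_al.H42.Lh4

/-!
# MP_fb3619_al: LEMMA H (helper11), the corollary `F ≤ Z(L)` for finite groups `L V`
-/

set_option autoImplicit false

universe u v w

namespace Pool.Agent.FourGp.H42

open Pool.Agent.FourGp.GJ6

variable {G : Type u} [Group G] {L : Subgroup G} {a b : G} {m : ℕ}

/-- The configuration of FLAT. -/
structure Sg (L : Subgroup G) (a b : G) (Sa Sb Sc : Subgroup G) : Prop where
  gen : L ≤ Subgroup.closure ((Sa : Set G) ∪ (Sb : Set G) ∪ (Sc : Set G))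
  ha : ∀ s ∈ Sa, s ∈ L ∧ a * s * a = s ∧ b * s * b = s⁻¹
  hb : ∀ s ∈ Sb, s ∈ L ∧ a * s * a = s⁻¹ ∧ b * s * b = s
  hc : ∀ s ∈ Sc, s ∈ L ∧ a * s * a = s⁻¹ ∧ b * s * b = s⁻¹
  ca : ∀ s ∈ Sa, ∀ x ∈ L, a * x * a = x → b * x * b = x⁻¹ → s * x = x * s
  cb : ∀ s ∈ Sb, ∀ x ∈ L, a * x * a = x⁻¹ → b * x * b = x → s * x = x * s
  cc : ∀ s ∈ Sc, ∀ x ∈ L, a * x * a = x⁻¹ → b * x * b = x⁻¹ → s * x = x * s
  na : ∀ f ∈ Ff L a b, ∀ s ∈ Sa, f⁻¹ * s * f ∈ Sa
  nb : ∀ f ∈ Ff L a b, ∀ s ∈ Sb, f⁻¹ * s * f ∈ Sb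
  nc : ∀ f ∈ Ff L a b, ∀ s ∈ Sc, f⁻¹ * s * f ∈ Sc

theorem cj2 {z x y : G} (hz : z * z = 1) (h : z * x * z = y) : x = z * y * z := by
  rw [← h]
  calc x = (z * z) * x * (z * z) := by rw [hz]; group
    _ = z * (z * x * z) * z := by group

theorem cjc {x : G} (hab : a * b = b * a) : (a * b) * x * (a * b) = a * (b * x * b) * a := by
  calc (a * b) * x * (a * b) = (a * b) * x * (b * a) := by rw [← hab]
    _ = _ := by group

theorem cj_fix {z x : G} (hz : z * z = 1) : z * x * z = x ↔ x * z = z * x := by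
  constructor
  · intro h
    calc x * z = z * x * z * z := by rw [h]
      _ = z * x * (z * z) := by group
      _ = z * x := by rw [hz, mul_one]
  · intro h
    rw [mul_assoc, h, ← mul_assoc, hz, one_mul]

theorem cj_inv {z x : G} (hz : z * z = 1) (h : z * x * z = x⁻¹) : z * x⁻¹ * z = x := by
  have h1 := congrArg (·⁻¹) h
  simp only [mul_inv_rev, inv_self hz, inv_inv] at h1
  rw [mul_assoc]; exact h1

theorem Ff_swap {L : Subgroup G} {a b : G} : Ff L b a = Ff L a b := by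
  ext x
  rw [mem_Ff, mem_Ff]
  tauto

/-- exchange of `a` and `b` in `Gp` -/
theorem gpswp (h : Gp L a b m) : Gp L b a m := by
  refine ⟨h.nrm, h.bb, h.aa, h.ab.symm, h.od, h.ex, ?_⟩
  intro g
  rcases h.cov g with h1 | h1 | h1 | h1
  · exact Or.inl h1
  · exact Or.inr (Or.inr (Or.inl h1))
  · exact Or.inr (Or.inl h1)
  · right; right; right
    rw [← h.ab]; exact h1

theorem Sg.swp {Sa Sb Sc : Subgroup G} (h : Sg L a b Sa Sb Sc) : Sg L b a Sb Sa Sc := by
  refine ⟨?_, ?_, ?_, ?_, ?_, ?_, ?_, ?_, ?_, ?_⟩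
  · rw [Set.union_comm (Sb : Set G)]; exact h.gen
  · intro s hs
    obtain ⟨h1, h2, h3⟩ := h.hb s hs
    exact ⟨h1, h3, h2⟩
  · intro s hs
    obtain ⟨h1, h2, h3⟩ := h.ha s hs
    exact ⟨h1, h3, h2⟩
  · intro s hs
    obtain ⟨h1, h2, h3⟩ := h.hc s hs
    exact ⟨h1, h3, h2⟩
  · intro s hs x hx h1 h2
    exact h.cb s hs x hx h2 h1
  · intro s hs x hx h1 h2
    exact h.ca s hs x hx h2 h1
  · intro s hs x hx h1 h2
    exact h.cc s hs x hx h2 h1
  · intro f hf
    rw [Ff_swap] at hf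
    exact h.nb f hf
  · intro f hf
    rw [Ff_swap] at hf
    exact h.na f hf
  · intro f hf
    rw [Ff_swap] at hf
    exact h.nc f hf

theorem Sg.sw {Sa Sb Sc : Subgroup G} (h : Sg L a b Sa Sb Sc) (haa : a * a = 1)
    (hab : a * b = b * a) : Sg L a (a * b) Sa Sc Sb := by
  have key : ∀ {x y : G}, b * x * b = y → (a * b) * x * (a * b) = a * y * a := by
    intro x y e
    rw [cjc hab, e]
  have key2 : ∀ {x y : G}, (a * b) * x * (a * b) = y → b * x * b = a * y * a := by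
    intro x y e
    rw [cjc hab] at e
    exact cj2 haa e
  refine ⟨?_, ?_, ?_, ?_, ?_, ?_, ?_, ?_, ?_, ?_⟩
  · have : ((Sa : Set G) ∪ (Sc : Set G) ∪ (Sb : Set G)) =
        ((Sa : Set G) ∪ (Sb : Set G) ∪ (Sc : Set G)) := by
      rw [Set.union_assoc, Set.union_comm (Sc : Set G), ← Set.union_assoc]
    rw [this]; exact h.gen
  · intro s hs
    obtain ⟨h1, h2, h3⟩ := h.ha s hs
    refine ⟨h1, h2, ?_⟩
    rw [key h3]
    have := congrArg (·⁻¹) h2
    simp only [mul_inv_rev, inv_self haa] at this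
    rw [mul_assoc]; exact this
  · intro s hs
    obtain ⟨h1, h2, h3⟩ := h.hc s hs
    refine ⟨h1, h2, ?_⟩
    rw [key h3]
    exact cj_inv haa h2
  · intro s hs
    obtain ⟨h1, h2, h3⟩ := h.hb s hs
    refine ⟨h1, h2, ?_⟩
    rw [key h3]
    exact h2
  · intro s hs x hx h1 h2
    refine h.ca s hs x hx h1 ?_
    rw [key2 h2]
    have := congrArg (·⁻¹) h1
    simp only [mul_inv_rev, inv_self haa] at this
    rw [mul_assoc]; exact this
  · intro s hs x hx h1 h2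
    refine h.cc s hs x hx h1 ?_
    rw [key2 h2]
    exact h1
  · intro s hs x hx h1 h2
    refine h.cb s hs x hx h1 ?_
    rw [key2 h2]
    exact cj_inv haa h1
  · intro f hf
    rw [Ff_sw] at hf
    exact h.na f hf
  · intro f hf
    rw [Ff_sw] at hf
    exact h.nc f hf
  · intro f hf
    rw [Ff_sw] at hf
    exact h.nb f hf

/-- `S_c` is normalised by `C_L(c)` -/
theorem Sg.nC {Sa Sb Sc : Subgroup G} (h : Gp L a b m) (hS : Sg L a b Sa Sb Sc) :
    ∀ d ∈ Cc L (a * b), ∀ s ∈ Sc, d⁻¹ * s * d ∈ Sc := by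
  intro d hd s hs
  obtain ⟨f, hf, x, ⟨hxL, hxc, hxa⟩, rfl⟩ := h.sw.dec0 hd
  rw [Ff_sw] at hf
  have h1 := hS.nc f hf s hs
  have hxc' : (a * b) * x * (a * b) = x := (cj_fix h.cc).2 hxc
  rw [cjc h.ab] at hxc'
  have hxb : b * x * b = x⁻¹ := by
    rw [cj2 h.aa hxc', hxa]
  have h2 := hS.cc _ h1 x hxL hxa hxb
  have e : (f * x)⁻¹ * s * (f * x) = f⁻¹ * s * f := by
    calc (f * x)⁻¹ * s * (f * x) = x⁻¹ * ((f⁻¹ * s * f) * x) := by group
      _ = x⁻¹ * (x * (f⁻¹ * s * f)) := by rw [h2]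
      _ = _ := by group
  rw [e]; exact h1

/-- the groups `Kk L b a` and `Kk L b (a b)` -/
theorem Kk_b (hbb : b * b = 1) (hab : a * b = b * a) : Kk L b (a * b) = Kk L b a := by
  unfold Kk
  congr 1
  ext x
  constructor
  · rintro ⟨h1, h2, h3⟩
    refine ⟨h1, h2, ?_⟩
    rw [cjc hab, (cj_fix hbb).2 h2] at h3
    exact h3
  · rintro ⟨h1, h2, h3⟩
    refine ⟨h1, h2, ?_⟩
    rw [cjc hab, (cj_fix hbb).2 h2]
    exact h3

/-- `F` commutes with `S_b` -/
theorem comB [Finite G] {Sa Sb Sc : Subgroup G} (h : Gp L a b m) (hS : Sg L a b Sa Sb Sc) :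
    ∀ f ∈ Ff L a b, ∀ s ∈ Sb, f * s = s * f := by
  -- the frame `(ab, b)`
  have haa := h.aa
  have hbb := h.bb
  have hab := h.ab
  have h' : Gp L (a * b) b m := by
    have h1 := gpswp (gpswp h).sw
    rwa [← h.ab] at h1
  have hS' : Sg L (a * b) b Sc Sb Sa := by
    have h1 := (hS.swp.sw hbb hab.symm).swp
    rwa [← hab] at h1
  have ea : (a * b) * b = a := by rw [mul_assoc, hbb, mul_one]
  have hF : Ff L a b ≤ Kk L b a := by
    refine corH h hS.gen (fun s hs => (hS.hb s hs).2.1) ?_ ?_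
    · have h4 := lem4 h' (S := Sa) (fun s hs => (hS.ha s hs).1)
        (fun s hs => (hS'.hc s hs).2.1) (fun s hs => (hS.ha s hs).2.2) (hS'.nC h')
      rw [Kk_b hbb hab] at h4
      exact h4
    · exact lem4 h (S := Sc) (fun s hs => (hS.hc s hs).1)
        (fun s hs => (hS.hc s hs).2.1) (fun s hs => (hS.hc s hs).2.2) (hS.nC h)
  intro f hf s hs
  have hle : Kk L b a ≤ Subgroup.centralizer {s} := by
    unfold Kk
    rw [Subgroup.closure_le]
    rintro x ⟨h1, h2, h3⟩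
    rw [SetLike.mem_coe, Subgroup.mem_centralizer_singleton_iff]
    exact (hS.cb s hs x h1 h3 ((cj_fix hbb).2 h2)).symm
  exact Subgroup.mem_centralizer_singleton_iff.1 (hle (hF hf))

/-- **Corollary** of LEMMA H: `F ≤ Z(L)`. -/
theorem cenG [Finite G] {Sa Sb Sc : Subgroup G} (h : Gp L a b m) (hS : Sg L a b Sa Sb Sc) :
    ∀ f ∈ Ff L a b, ∀ x ∈ L, f * x = x * f := by
  intro f hf
  have cB := comB h hS f hf
  have cA := comB (gpswp h) hS.swp f (by rw [Ff_swap]; exact hf)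
  have cC := comB h.sw (hS.sw h.aa h.ab) f (by rw [Ff_sw]; exact hf)
  have hle : L ≤ Subgroup.centralizer {f} := by
    refine hS.gen.trans ?_
    rw [Subgroup.closure_le]
    rintro x ((hx | hx) | hx) <;>
      rw [SetLike.mem_coe, Subgroup.mem_centralizer_singleton_iff]
    · exact (cA x hx).symm
    · exact (cB x hx).symm
    · exact (cC x hx).symm
  intro x hx
  exact (Subgroup.mem_centralizer_singleton_iff.1 (hle hx)).symm

end Pool.Agent.FourGp.H42
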