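import Pool.Agent.Lib.MP_fb3619_al.H42.Lh5
import Pool.Agent.Lib.MP_fb3619_al.GJ6.Lf
import Pool.Agent.Lib.MP_fb3619_al.H28.Flat

/-!
# MP_fb3619_al: LEMMA H (helper11), the corollary `F ≤ Z(W)` inside an arbitrary group and for a
finite group with two automorphisms (the structure `Cg` of helper28)
-/

set_option autoImplicit false

universe u v w

namespace Pool.Agent.FourGp.H42

open Pool.Agent.FourGp.GJ6
open Pool.Agent.FourGp.H28f

section Nv

variable {G : Type u} [Group G] {L : Subgroup G} {a b : G}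

theorem sub_coe {H : Subgroup G} {Sa Sb Sc : Subgroup G} (hS : Sg L a b Sa Sb Sc)
    (hL : L ≤ H) (haH : a ∈ H) (hbH : b ∈ H) :
    Sg (L.subgroupOf H) (⟨a, haH⟩ : H) ⟨b, hbH⟩ (Sa.subgroupOf H) (Sb.subgroupOf H)
      (Sc.subgroupOf H) := by
  have co : ∀ {z x y : H}, (z : G) * x * z = y → z * x * z = y := fun e => Subtype.ext e
  have oc : ∀ {z x y : H}, z * x * z = y → (z : G) * x * z = y := by
    intro z x y e
    have := congrArg H.subtype e
    rwa [map_mul, map_mul] at this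
  refine ⟨?_, ?_, ?_, ?_, ?_, ?_, ?_, ?_, ?_, ?_⟩
  · intro x hx
    have h1 := hS.gen (Subgroup.mem_subgroupOf.1 hx)
    have h2 := Nv.cl_map (H := H) (S := (Sa : Set G) ∪ (Sb : Set G) ∪ (Sc : Set G)) (by
      rintro y ((hy | hy) | hy)
      · exact hL (hS.ha y hy).1
      · exact hL (hS.hb y hy).1
      · exact hL (hS.hc y hy).1) h1
    exact h2
  · intro s hs
    obtain ⟨h1, h2, h3⟩ := hS.ha s (Subgroup.mem_subgroupOf.1 hs)
    exact ⟨Subgroup.mem_subgroupOf.2 h1, Subtype.ext h2, Subtype.ext h3⟩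
  · intro s hs
    obtain ⟨h1, h2, h3⟩ := hS.hb s (Subgroup.mem_subgroupOf.1 hs)
    exact ⟨Subgroup.mem_subgroupOf.2 h1, Subtype.ext h2, Subtype.ext h3⟩
  · intro s hs
    obtain ⟨h1, h2, h3⟩ := hS.hc s (Subgroup.mem_subgroupOf.1 hs)
    exact ⟨Subgroup.mem_subgroupOf.2 h1, Subtype.ext h2, Subtype.ext h3⟩
  · intro s hs x hx h1 h2
    exact Subtype.ext (hS.ca s (Subgroup.mem_subgroupOf.1 hs) x (Subgroup.mem_subgroupOf.1 hx)
      (oc h1) (oc h2))
  · intro s hs x hx h1 h2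
    exact Subtype.ext (hS.cb s (Subgroup.mem_subgroupOf.1 hs) x (Subgroup.mem_subgroupOf.1 hx)
      (oc h1) (oc h2))
  · intro s hs x hx h1 h2
    exact Subtype.ext (hS.cc s (Subgroup.mem_subgroupOf.1 hs) x (Subgroup.mem_subgroupOf.1 hx)
      (oc h1) (oc h2))
  · intro f hf s hs
    have hf' : (f : G) ∈ Ff L a b := (Nv.coe_Ff (⟨a, haH⟩ : H) ⟨b, hbH⟩ f).1 hf
    have h1 := hS.na f hf' s (Subgroup.mem_subgroupOf.1 hs)
    rw [Subgroup.mem_subgroupOf, Subgroup.coe_mul, Subgroup.coe_mul, Subgroup.coe_inv]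
    exact h1
  · intro f hf s hs
    have hf' : (f : G) ∈ Ff L a b := (Nv.coe_Ff (⟨a, haH⟩ : H) ⟨b, hbH⟩ f).1 hf
    have h1 := hS.nb f hf' s (Subgroup.mem_subgroupOf.1 hs)
    rw [Subgroup.mem_subgroupOf, Subgroup.coe_mul, Subgroup.coe_mul, Subgroup.coe_inv]
    exact h1
  · intro f hf s hs
    have hf' : (f : G) ∈ Ff L a b := (Nv.coe_Ff (⟨a, haH⟩ : H) ⟨b, hbH⟩ f).1 hf
    have h1 := hS.nc f hf' s (Subgroup.mem_subgroupOf.1 hs)
    rw [Subgroup.mem_subgroupOf, Subgroup.coe_mul, Subgroup.coe_mul, Subgroup.coe_inv]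
    exact h1

/-- `F ≤ Z(L)` for a finite subgroup of an arbitrary group -/
theorem cenNv (h : Nv L a b) (hf : (L : Set G).Finite)
    (hodd : ∀ x ∈ L, ∃ n : ℕ, x ^ (2 * n + 1) = 1) {Sa Sb Sc : Subgroup G}
    (hS : Sg L a b Sa Sb Sc) : ∀ f ∈ Ff L a b, ∀ x ∈ L, f * x = x * f := by
  have hfinH : Finite h.LV := (h.fin hf).to_subtype
  have hfinL : Finite L := hf.to_subtype
  have hmodd : Odd (Nat.card L) := by
    by_contra hcon
    rw [Nat.not_odd_iff_even] at hcon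
    have hp : Fact (Nat.Prime 2) := ⟨Nat.prime_two⟩
    obtain ⟨x, hx⟩ := exists_prime_orderOf_dvd_card' (G := L) 2 hcon.two_dvd
    obtain ⟨n, hn⟩ := hodd x x.2
    have h1 : x ^ (2 * n + 1) = 1 := Subtype.ext (by rw [Subgroup.coe_pow]; exact hn)
    have h2 := orderOf_dvd_of_pow_eq_one h1
    rw [hx] at h2
    omega
  obtain ⟨k, hk⟩ := hmodd
  have haH : a ∈ h.LV := h.v_mem (Or.inr (Or.inl rfl))
  have hbH : b ∈ h.LV := h.v_mem (Or.inr (Or.inr (Or.inl rfl)))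
  have hGp := Nv.gp_of (m := Nat.card L) h haH hbH (fun g hg => h.mem_LV.1 hg) ⟨k, hk⟩ (by
    intro x hx
    have h1 : (⟨x, hx⟩ : L) ^ (Nat.card L) = 1 := pow_card_eq_one'
    have h2 := congrArg L.subtype h1
    rw [map_pow] at h2
    exact h2)
  intro f hf x hx
  have hL := h.L_le
  have h3 := cenG hGp (sub_coe hS hL haH hbH) ⟨f, hL (mem_Ff.1 hf).1⟩ ((Nv.coe_Ff _ _ _).2 hf)
    ⟨x, hL hx⟩ (Subgroup.mem_subgroupOf.2 hx)
  exact congrArg Subtype.val h3

end Nv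

section Cg

variable {W : Type u} [Group W]

/-- an involutory homomorphism as a permutation -/
def prm (α : W →* W) (h : ∀ x, α (α x) = x) : Equiv.Perm W where
  toFun := α
  invFun := α
  left_inv := h
  right_inv := h

/-- left translations -/
def lt (w : W) : Equiv.Perm W := Equiv.mulLeft w

theorem lt_mul (x y : W) : lt (x * y) = lt x * lt y := by
  ext z
  show x * y * z = x * (y * z)
  rw [mul_assoc]

theorem lt_one : lt (1 : W) = 1 := by
  ext z
  simp [lt]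

theorem lt_inv (x : W) : lt x⁻¹ = (lt x)⁻¹ := by
  rw [eq_inv_iff_mul_eq_one, ← lt_mul, inv_mul_cancel, lt_one]

theorem lt_inj {x y : W} (h : lt x = lt y) : x = y := by
  have := congrArg (fun e : Equiv.Perm W => e 1) h
  simpa [lt] using this

theorem prm_lt {α : W →* W} (h : ∀ x, α (α x) = x) (w : W) :
    prm α h * lt w * prm α h = lt (α w) := by
  ext z
  show α (w * α z) = α w * z
  rw [map_mul, h]

/-- the subgroup of left translations -/
def ltS (S : Subgroup W) : Subgroup (Equiv.Perm W) where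
  carrier := {e | ∃ w ∈ S, e = lt w}
  one_mem' := ⟨1, S.one_mem, lt_one.symm⟩
  mul_mem' := by
    rintro _ _ ⟨x, hx, rfl⟩ ⟨y, hy, rfl⟩
    exact ⟨x * y, S.mul_mem hx hy, (lt_mul x y).symm⟩
  inv_mem' := by
    rintro _ ⟨x, hx, rfl⟩
    exact ⟨x⁻¹, S.inv_mem hx, (lt_inv x).symm⟩

/-- **Corollary** of LEMMA H: in the configuration `Cg` the fixed points are central. -/
theorem cen_of_Cg [Finite W] {α β : W →* W} {Sa Sb Sc : Subgroup W} (h : Cg α β Sa Sb Sc) :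
    ∀ f, α f = f → β f = f → ∀ w : W, f * w = w * f := by
  classical
  set a := prm α h.aa with ha
  set b := prm β h.bb with hb
  have haa : a * a = 1 := by
    ext z
    show α (α z) = z
    exact h.aa z
  have hbb : b * b = 1 := by
    ext z
    show β (β z) = z
    exact h.bb z
  have hab : a * b = b * a := by
    ext z
    show α (β z) = β (α z)
    exact h.ab z
  have ca : ∀ w, a * lt w * a = lt (α w) := prm_lt h.aa
  have cb : ∀ w, b * lt w * b = lt (β w) := prm_lt h.bb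
  have hNv : Nv (ltS (⊤ : Subgroup W)) a b := by
    refine ⟨haa, hbb, hab, ?_, ?_⟩
    · rintro _ ⟨w, _, rfl⟩
      exact ⟨α w, Subgroup.mem_top _, ca w⟩
    · rintro _ ⟨w, _, rfl⟩
      exact ⟨β w, Subgroup.mem_top _, cb w⟩
  have hodd : ∀ x ∈ ltS (⊤ : Subgroup W), ∃ n : ℕ, x ^ (2 * n + 1) = 1 := by
    rintro _ ⟨w, _, rfl⟩
    obtain ⟨n, hn⟩ := h.odd
    refine ⟨n, ?_⟩
    have h1 : w ^ (2 * n + 1) = 1 := by rw [← hn]; exact pow_card_eq_one'
    have h2 : ∀ k : ℕ, lt w ^ k = lt (w ^ k) := by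
      intro k
      induction k with
      | zero => rw [pow_zero, pow_zero, lt_one]
      | succ k ih => rw [pow_succ, pow_succ, lt_mul, ih]
    rw [h2, h1, lt_one]
  have ff : ∀ w : W, lt w ∈ Ff (ltS (⊤ : Subgroup W)) a b ↔ α w = w ∧ β w = w := by
    intro w
    rw [mem_Ff]
    constructor
    · rintro ⟨_, h2, h3⟩
      have e1 := (cj_fix haa).2 h3
      have e2 := (cj_fix hbb).2 h2
      rw [ca] at e1
      rw [cb] at e2
      exact ⟨lt_inj e1, lt_inj e2⟩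
    · rintro ⟨h1, h2⟩
      refine ⟨⟨w, Subgroup.mem_top _, rfl⟩, (cj_fix hbb).1 ?_, (cj_fix haa).1 ?_⟩
      · rw [cb, h2]
      · rw [ca, h1]
  have hSg : Sg (ltS (⊤ : Subgroup W)) a b (ltS Sa) (ltS Sb) (ltS Sc) := by
    refine ⟨?_, ?_, ?_, ?_, ?_, ?_, ?_, ?_, ?_, ?_⟩
    · rintro _ ⟨w, _, rfl⟩
      obtain ⟨Cl, hCl⟩ : ∃ Cl : Subgroup (Equiv.Perm W), Cl = Subgroup.closure
          ((ltS Sa : Set (Equiv.Perm W)) ∪ (ltS Sb : Set (Equiv.Perm W)) ∪
            (ltS Sc : Set (Equiv.Perm W))) := ⟨_, rfl⟩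
      rw [← hCl]
      let Z : Subgroup W :=
        { carrier := {w | lt w ∈ Cl}
          one_mem' := by
            show lt 1 ∈ Cl
            rw [lt_one]
            exact Cl.one_mem
          mul_mem' := by
            intro x y hx hy
            show lt (x * y) ∈ Cl
            rw [lt_mul]
            exact Cl.mul_mem hx hy
          inv_mem' := by
            intro x hx
            show lt x⁻¹ ∈ Cl
            rw [lt_inv]
            exact Cl.inv_mem hx }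
      have hZ : Z = ⊤ := h.all_of Z
        (fun s hs => by
          show lt s ∈ Cl
          rw [hCl]
          exact Subgroup.subset_closure (Or.inl (Or.inl ⟨s, hs, rfl⟩)))
        (fun s hs => by
          show lt s ∈ Cl
          rw [hCl]
          exact Subgroup.subset_closure (Or.inl (Or.inr ⟨s, hs, rfl⟩)))
        (fun s hs => by
          show lt s ∈ Cl
          rw [hCl]
          exact Subgroup.subset_closure (Or.inr ⟨s, hs, rfl⟩))
      have : w ∈ Z := by rw [hZ]; exact Subgroup.mem_top w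
      exact this
    · rintro _ ⟨s, hs, rfl⟩
      obtain ⟨h1, h2⟩ := h.sa s hs
      exact ⟨⟨s, Subgroup.mem_top _, rfl⟩, by rw [ca, h1], by rw [cb, h2, lt_inv]⟩
    · rintro _ ⟨s, hs, rfl⟩
      obtain ⟨h1, h2⟩ := h.sb s hs
      exact ⟨⟨s, Subgroup.mem_top _, rfl⟩, by rw [ca, h1, lt_inv], by rw [cb, h2]⟩
    · rintro _ ⟨s, hs, rfl⟩
      obtain ⟨h1, h2⟩ := h.sc s hs
      exact ⟨⟨s, Subgroup.mem_top _, rfl⟩, by rw [ca, h1, lt_inv], by rw [cb, h2, lt_inv]⟩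
    · rintro _ ⟨s, hs, rfl⟩ _ ⟨x, _, rfl⟩ h1 h2
      rw [ca] at h1
      rw [cb, ← lt_inv] at h2
      rw [← lt_mul, ← lt_mul, h.ca s hs x (lt_inj h1) (lt_inj h2)]
    · rintro _ ⟨s, hs, rfl⟩ _ ⟨x, _, rfl⟩ h1 h2
      rw [ca, ← lt_inv] at h1
      rw [cb] at h2
      rw [← lt_mul, ← lt_mul, h.cb s hs x (lt_inj h1) (lt_inj h2)]
    · rintro _ ⟨s, hs, rfl⟩ _ ⟨x, _, rfl⟩ h1 h2
      rw [ca, ← lt_inv] at h1
      rw [cb, ← lt_inv] at h2
      rw [← lt_mul, ← lt_mul, h.cc s hs x (lt_inj h1) (lt_inj h2)]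
    · intro f hf
      obtain ⟨w, _, rfl⟩ := (mem_Ff.1 hf).1
      obtain ⟨h1, h2⟩ := (ff w).1 hf
      rintro _ ⟨s, hs, rfl⟩
      exact ⟨w⁻¹ * s * w, h.na w h1 h2 s hs, by rw [lt_mul, lt_mul, lt_inv]⟩
    · intro f hf
      obtain ⟨w, _, rfl⟩ := (mem_Ff.1 hf).1
      obtain ⟨h1, h2⟩ := (ff w).1 hf
      rintro _ ⟨s, hs, rfl⟩
      exact ⟨w⁻¹ * s * w, h.nb w h1 h2 s hs, by rw [lt_mul, lt_mul, lt_inv]⟩
    · intro f hf
      obtain ⟨w, _, rfl⟩ := (mem_Ff.1 hf).1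
      obtain ⟨h1, h2⟩ := (ff w).1 hf
      rintro _ ⟨s, hs, rfl⟩
      exact ⟨w⁻¹ * s * w, h.nc w h1 h2 s hs, by rw [lt_mul, lt_mul, lt_inv]⟩
  intro f h1 h2 w
  have key := cenNv hNv (Set.toFinite _) hodd hSg (lt f) ((ff f).2 ⟨h1, h2⟩) (lt w)
    ⟨w, Subgroup.mem_top _, rfl⟩
  rw [← lt_mul, ← lt_mul] at key
  exact lt_inj key

end Cg

end Pool.Agent.FourGp.H42
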